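import Pool.Agent.Helper10.TW.Defs
import Pool.Agent.Helper15.SI.P6
import Pool.Agent.Helper94.SI.Level
import Pool.Agent.Helper94.SI.P5

/-! Project TW, leaf E (second copy): palindromes with a prefix and a large square factor. -/

set_option autoImplicit false

namespace Pool.Agent.Helper10.TW

open Finset Filter Pool.Agent.Helper10 Pool.Agent.Helper10.P5 Pool.Agent.Helper10.P4
  Pool.Agent.Helper10.P3 Pool.Agent.Helper10.SQ Pool.Agent.Helper10.EN Pool.Agent.Helper15.SI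

open Classical in
theorem bigW : ∃ c : ℝ, 0 < c ∧ ∃ n0 : ℕ, ∀ n : ℕ, n0 ≤ n → ∀ k w : ℕ, 1 ≤ k → 20000 * k ≤ n →
    10 ^ (k - 1) ≤ w → w < 10 ^ k →
    (((PW n k w).filter (bsq n)).card : ℝ) ≤ 10 ^ (n - k) * Real.exp (-(c * √(n : ℝ))) := by
  obtain ⟨c0, hc0, n1, hT⟩ := tail_S (1 / 20) (by norm_num) level_S_all
  obtain ⟨n2, hn2⟩ := exists_nat_ge ((Real.log 91 / (c0 / 4)) ^ 2 + (10 * c0) ^ 2)
  refine ⟨c0 / 4, by positivity, n1 + n2 + 21, fun n hn k w hk hkn hw1 hw => ?_⟩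
  have hn21 : (21 : ℝ) ≤ n := by exact_mod_cast (by omega : 21 ≤ n)
  have hn0 : (0 : ℝ) < n := by linarith
  have hnn2 : (Real.log 91 / (c0 / 4)) ^ 2 + (10 * c0) ^ 2 ≤ n :=
    hn2.trans (by exact_mod_cast (by omega : n2 ≤ n))
  have hkR : (20000 : ℝ) * k ≤ n := by exact_mod_cast hkn
  set X := Real.sqrt (n : ℝ) with hX
  have hX0 : 0 < X := Real.sqrt_pos.2 hn0
  have hX2 : X ^ 2 = n := Real.sq_sqrt hn0.le
  have hX1 : Real.log 91 ≤ c0 / 4 * X := by
    have h1 : Real.log 91 / (c0 / 4) ≤ X := by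
      rw [hX]
      apply Real.le_sqrt_of_sq_le
      nlinarith [sq_nonneg (10 * c0)]
    rw [div_le_iff₀ (by positivity)] at h1
    linarith
  have hX3 : 10 * c0 ≤ X := by
    rw [hX]
    apply Real.le_sqrt_of_sq_le
    nlinarith [sq_nonneg (Real.log 91 / (c0 / 4))]
  have hE91 : 91 ≤ Real.exp (c0 / 4 * X) := by
    rw [← Real.exp_log (by norm_num : (0 : ℝ) < 91)]
    exact Real.exp_le_exp.2 hX1
  obtain ⟨t, ht⟩ := hT n (by omega) k (by linarith)
  have hexp1 : 1 ≤ Real.exp (c0 * X) := Real.one_le_exp (by positivity)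
  set Z := ⌊Real.exp (c0 * X)⌋₊ with hZ
  have hZ1 : 1 ≤ Z := by
    rw [hZ]
    exact Nat.le_floor (by exact_mod_cast hexp1)
  have hZR1 : (1 : ℝ) ≤ Z := by exact_mod_cast hZ1
  have hZle : (Z : ℝ) ≤ Real.exp (c0 * X) := Nat.floor_le (Real.exp_pos _).le
  have hZge : Real.exp (c0 * X) ≤ 2 * Z := by
    have := Nat.lt_floor_add_one (Real.exp (c0 * X))
    rw [← hZ] at this
    linarith
  have hZlt : Z < 10 ^ (n / 10) := by
    have h1 : (Z : ℝ) < (10 : ℝ) ^ (n / 10) := by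
      refine hZle.trans_lt ?_
      have h2 : Real.exp (2 * ((n / 10 : ℕ) : ℝ)) ≤ (10 : ℝ) ^ (n / 10) := by
        have h3 : Real.exp 2 ≤ 10 := by
          rw [← Real.exp_log (by norm_num : (0 : ℝ) < 10)]
          exact Real.exp_le_exp.2 two_le_log_ten
        calc Real.exp (2 * ((n / 10 : ℕ) : ℝ)) = Real.exp 2 ^ (n / 10) := by
              rw [← Real.exp_nat_mul, mul_comm]
          _ ≤ (10 : ℝ) ^ (n / 10) := pow_le_pow_left₀ (Real.exp_pos _).le h3 _
      refine lt_of_lt_of_le ?_ h2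
      apply Real.exp_lt_exp.2
      have h4 : (n : ℝ) < 10 * ((n / 10 : ℕ) : ℝ) + 10 := by
        exact_mod_cast (by omega : n < 10 * (n / 10) + 10)
      have h5 : 10 * (c0 * X) ≤ n := by nlinarith
      linarith
    exact_mod_cast h1
  have hb : ∀ s : ℕ, ∃ b : ℕ, s.Coprime 10 →
      ((PW n k w).filter (fun N => N ≡ 0 [MOD s ^ 2])).card = sc (n - k) (s ^ 2) b := by
    intro s
    by_cases hs : s.Coprime 10
    · obtain ⟨b, hb⟩ := pw_count (fun l N hl => isPalD_iff l N hl) (fun l k w hw => sy_prefix l k w hw)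
        n k w hk (by omega) hw1 hw (s ^ 2) 0 (Nat.Coprime.pow_left 2 hs)
      exact ⟨b, fun _ => hb⟩
    · exact ⟨0, fun h => absurd h hs⟩
  choose b hb using hb
  have hmain := ht Z hZ1 hZle b
  have hsub : (PW n k w).filter (bsq n) ⊆
      (((Ioc Z (10 ^ t)).filter (fun s : ℕ => s.Coprime 10)).biUnion
        (fun s => (PW n k w).filter (fun N => N ≡ 0 [MOD s ^ 2]))) ∪
      (Pal n).filter (fun P => ∃ d : ℕ, 10 ^ t ≤ d ∧ d ^ 2 ∣ P) := by
    intro N hN
    rw [mem_filter] at hN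
    obtain ⟨hN1, d, hd1, hd2, hd3⟩ := hN
    rw [mem_union]
    by_cases hd : d ≤ 10 ^ t
    · left
      rw [mem_biUnion]
      refine ⟨d, ?_, ?_⟩
      · rw [mem_filter, mem_Ioc]
        exact ⟨⟨by omega, hd⟩, hd2⟩
      · rw [mem_filter]
        exact ⟨hN1, (Nat.modEq_zero_iff_dvd).2 hd3⟩
    · right
      rw [mem_filter]
      refine ⟨?_, d, by omega, hd3⟩
      unfold PW at hN1
      exact (mem_filter.1 hN1).1
  have hcard : (((PW n k w).filter (bsq n)).card : ℝ) ≤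
      ∑ s ∈ (Ioc Z (10 ^ t)).filter (fun s : ℕ => s.Coprime 10),
        ((sc (n - k) (s ^ 2) (b s) : ℕ) : ℝ) +
      (((Pal n).filter (fun P => ∃ d : ℕ, 10 ^ t ≤ d ∧ d ^ 2 ∣ P)).card : ℝ) := by
    have h1 : ((PW n k w).filter (bsq n)).card ≤
        ∑ s ∈ (Ioc Z (10 ^ t)).filter (fun s : ℕ => s.Coprime 10), sc (n - k) (s ^ 2) (b s) +
        ((Pal n).filter (fun P => ∃ d : ℕ, 10 ^ t ≤ d ∧ d ^ 2 ∣ P)).card := by
      refine (card_le_card hsub).trans ((card_union_le _ _).trans ?_)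
      apply Nat.add_le_add_right
      refine card_biUnion_le.trans (le_of_eq ?_)
      exact sum_congr rfl fun s hs => hb s (mem_filter.1 hs).2
    exact_mod_cast h1
  have hle : ∑ s ∈ (Ioc Z (10 ^ t)).filter (fun s : ℕ => s.Coprime 10),
        ((sc (n - k) (s ^ 2) (b s) : ℕ) : ℝ) +
      (((Pal n).filter (fun P => ∃ d : ℕ, 10 ^ t ≤ d ∧ d ^ 2 ∣ P)).card : ℝ) ≤
      (10 : ℝ) ^ (n - k) * (60 / Real.sqrt Z + Real.exp (-(c0 * X))) := by
    refine le_trans (add_le_add ?_ ?_) hmain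
    · apply sum_le_sum
      intro s _
      have h1 : (0 : ℝ) ≤ ((sc (n - k) (s ^ 2) (b s) : ℕ) : ℝ) := Nat.cast_nonneg _
      have h2 : (0 : ℝ) ≤ (((Icc 1 Z).filter (fun d => d ∣ s)).card : ℝ) := Nat.cast_nonneg _
      nlinarith
    · have h1 : (0 : ℝ) ≤ (((Pal n).filter (fun P => ∃ d : ℕ, 10 ^ t ≤ d ∧ d ^ 2 ∣ P)).card : ℝ) :=
        Nat.cast_nonneg _
      nlinarith
  refine (hcard.trans hle).trans ?_
  apply mul_le_mul_of_nonneg_left _ (by positivity)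
  have h1 : 60 / Real.sqrt (Z : ℝ) ≤ 90 * Real.exp (-(c0 / 2 * X)) := by
    have h2 : Real.exp (c0 / 2 * X) ≤ 3 / 2 * Real.sqrt Z := by
      have h3 : Real.exp (c0 / 2 * X) ^ 2 = Real.exp (c0 * X) := by
        rw [← Real.exp_nat_mul]
        congr 1
        push_cast
        ring
      have h4 : Real.sqrt (Z : ℝ) ^ 2 = Z := Real.sq_sqrt (by linarith)
      have h5 : 0 ≤ Real.sqrt (Z : ℝ) := Real.sqrt_nonneg _
      apply le_of_sq_le_sq _ (by positivity)
      rw [h3, mul_pow, h4]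
      linarith
    have hZ0 : 0 < Real.sqrt (Z : ℝ) := Real.sqrt_pos.2 (by linarith)
    rw [Real.exp_neg, ← div_eq_mul_inv, div_le_div_iff₀ hZ0 (Real.exp_pos _)]
    linarith
  have h2 : Real.exp (-(c0 * X)) ≤ Real.exp (-(c0 / 2 * X)) := by
    apply Real.exp_le_exp.2
    nlinarith [mul_pos hc0 hX0]
  have h3 : 91 * Real.exp (-(c0 / 2 * X)) ≤ Real.exp (-(c0 / 4 * X)) := by
    calc 91 * Real.exp (-(c0 / 2 * X)) ≤ Real.exp (c0 / 4 * X) * Real.exp (-(c0 / 2 * X)) :=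
          mul_le_mul_of_nonneg_right hE91 (Real.exp_pos _).le
      _ = Real.exp (-(c0 / 4 * X)) := by
          rw [← Real.exp_add]
          congr 1
          ring
  linarith

end Pool.Agent.Helper10.TW
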